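import Pool.Agent.N190.Sd.Prim

/-!
# Weighted traces and idempotents
-/

set_option autoImplicit false

open Polynomial Module Finset

namespace Pool.Agent.N190.Sd

variable {K : Type*} [Field K] [CharZero K] {V : Type*} [AddCommGroup V] [Module K V]
  [Module.Finite K V]

/-- evaluation of a rational polynomial -/
noncomputable def evq (u : End K V) (G : ℚ[X]) : End K V := aeval u (G.map (algebraMap ℚ K))

variable {u : End K V}

lemma evq_mul (F G : ℚ[X]) : evq u (F * G) = evq u F * evq u G := by
  rw [evq, Polynomial.map_mul, map_mul]; rfl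

lemma evq_add (F G : ℚ[X]) : evq u (F + G) = evq u F + evq u G := by
  rw [evq, Polynomial.map_add, map_add]; rfl

lemma evq_X : evq u X = u := by rw [evq, map_X, aeval_X]

lemma evq_one : evq u 1 = 1 := by rw [evq, Polynomial.map_one, map_one]

lemma evq_comm (F G : ℚ[X]) : evq u F * evq u G = evq u G * evq u F := by
  rw [← evq_mul, ← evq_mul, mul_comm]

lemma evq_comm_of {p : End K V} (hp : u * p = p * u) (G : ℚ[X]) : evq u G * p = p * evq u G := by
  induction G using Polynomial.induction_on' with
  | add F G hF hG => rw [evq_add, add_mul, mul_add, hF, hG]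
  | monomial n c =>
    have h1 : u ^ n * p = p * u ^ n := (Commute.pow_left (show Commute u p from hp) n)
    rw [evq, map_monomial, aeval_monomial, Algebra.algebraMap_eq_smul_one, smul_mul_assoc, one_mul,
      smul_mul_assoc, mul_smul_comm, h1]

section

variable {p : End K V} (hp : u * p = p * u)
  (hrat : ∀ l : ℕ, ∃ q : ℚ, LinearMap.trace K V (u ^ l * p) = (q : K))

include hrat in
lemma evq_rat (G : ℚ[X]) : ∃ q : ℚ, LinearMap.trace K V (evq u G * p) = (q : K) := by
  induction G using Polynomial.induction_on' with
  | add F G hF hG =>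
    obtain ⟨a, ha⟩ := hF
    obtain ⟨b, hb⟩ := hG
    exact ⟨a + b, by rw [evq_add, add_mul, map_add, ha, hb]; push_cast; rfl⟩
  | monomial n c =>
    obtain ⟨q, hq⟩ := hrat n
    refine ⟨c * q, ?_⟩
    rw [evq, map_monomial, aeval_monomial, Algebra.algebraMap_eq_smul_one, smul_mul_assoc, one_mul,
      smul_mul_assoc, map_smul, hq, smul_eq_mul]
    push_cast; rfl

include hp hrat in
/-- The trace on a primary part. -/
theorem trace_part (hpp : p * p = p) {E m : ℚ[X]} (hE : evq u E * evq u E = evq u E)
    (hm : Irreducible m) (hmm : m.Monic) {i : ℕ} (h0 : evq u (m ^ i * E) = 0) :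
    (m.natDegree : K) * LinearMap.trace K V (u * evq u E * p) =
      -((m.nextCoeff : ℚ) : K) * LinearMap.trace K V (evq u E * p) := by
  set P := evq u E * p with hP
  have hεp : evq u E * p = p * evq u E := evq_comm_of hp E
  have hPP : P * P = P := by
    rw [hP, mul_assoc, ← mul_assoc p, ← hεp, mul_assoc, hpp, ← mul_assoc, hE]
  have huP : ∀ l : ℕ, u ^ l * P = P * u ^ l := by
    intro l
    have h1 : u ^ l = evq u (X ^ l) := by rw [evq, Polynomial.map_pow, map_X, map_pow, aeval_X]
    have h2 : u ^ l * p = p * u ^ l := (Commute.pow_left (show Commute u p from hp) l)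
    rw [hP, ← mul_assoc, h1, evq_comm, mul_assoc, ← h1, h2, mul_assoc]
  set N := LinearMap.range P with hN
  have hPN : ∀ x ∈ N, P x = x := by
    rintro _ ⟨y, rfl⟩
    rw [← Module.End.mul_apply, hPP]
  have huN : ∀ x ∈ N, u x ∈ N := by
    intro x hx
    refine ⟨u x, ?_⟩
    have := congrArg (fun f => f x) (huP 1)
    simp only [pow_one, Module.End.mul_apply] at this
    rw [← this, hPN x hx]
  set v := u.restrict huN with hv
  have hvl : ∀ (l : ℕ) (x : N), ((v ^ l) x : V) = (u ^ l) x := by
    intro l
    induction l with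
    | zero => intro x; rfl
    | succ l ih =>
      intro x
      rw [pow_succ', Module.End.mul_apply, pow_succ', Module.End.mul_apply, ← ih]
      rfl
  have htr : ∀ l : ℕ, LinearMap.trace K N (v ^ l) = LinearMap.trace K V (u ^ l * P) := by
    intro l
    have h1 : ∀ x, (u ^ l * P) x ∈ N := by
      intro x
      rw [huP l]
      exact ⟨_, rfl⟩
    rw [← LinearMap.trace_restrict_eq_of_forall_mem N (u ^ l * P) h1]
    congr 1
    apply LinearMap.ext
    intro x
    apply Subtype.ext
    rw [hvl]
    change _ = (u ^ l) (P x)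
    rw [hPN x x.2]
  have hvrat : ∀ l : ℕ, ∃ q : ℚ, LinearMap.trace K N (v ^ l) = (q : K) := by
    intro l
    obtain ⟨q, hq⟩ := evq_rat hrat (X ^ l * E)
    refine ⟨q, ?_⟩
    have hX : u ^ l = evq u (X ^ l) := by rw [evq, Polynomial.map_pow, map_X, map_pow, aeval_X]
    rw [htr, ← hq, hP, evq_mul, ← mul_assoc, hX]
  have haev : ∀ (f : K[X]) (x : N), ((aeval v f) x : V) = (aeval u f) x := by
    intro f x
    induction f using Polynomial.induction_on' with
    | add f g hf hg =>
      rw [map_add, map_add, LinearMap.add_apply, LinearMap.add_apply, ← hf, ← hg]; rfl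
    | monomial n c =>
      rw [aeval_monomial, aeval_monomial, Algebra.algebraMap_eq_smul_one,
        Algebra.algebraMap_eq_smul_one, smul_mul_assoc, one_mul, smul_mul_assoc, one_mul,
        LinearMap.smul_apply, LinearMap.smul_apply, ← hvl]; rfl
  have hv0 : aeval v ((m ^ i).map (algebraMap ℚ K)) = 0 := by
    apply LinearMap.ext
    intro x
    apply Subtype.ext
    rw [haev]
    have h1 : (x : V) = P x := (hPN x x.2).symm
    have h2 : evq u (m ^ i) * P = 0 := by rw [hP, ← mul_assoc, ← evq_mul, h0, zero_mul]
    have h3 := congrArg (fun f => f (x : V)) h2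
    rw [h1]
    exact h3
  have key := trace_primary hvrat hm hmm hv0
  have e1 := htr 1
  have e0 := htr 0
  rw [pow_one, pow_one] at e1
  rw [pow_zero, pow_zero, one_mul, LinearMap.trace_one] at e0
  rw [e1, e0, hP, ← mul_assoc] at key
  exact key

end

/-- **Weighted traces vanish if they vanish on the idempotents.** -/
theorem sum_trace_zero {ι : Type*} {s : Finset ι} {π : ι → End K V} (hπ : ∀ k ∈ s, π k * π k = π k)
    (hu : ∀ k ∈ s, u * π k = π k * u) (h1 : ∑ k ∈ s, π k = 1)
    (hrat : ∀ k ∈ s, ∀ l : ℕ, ∃ q : ℚ, LinearMap.trace K V (u ^ l * π k) = (q : K)) (c : ι → K)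
    (hid : ∀ G : ℚ[X], evq u G * evq u G = evq u G →
      ∑ k ∈ s, c k * LinearMap.trace K V (evq u G * π k) = 0) :
    ∑ k ∈ s, c k * LinearMap.trace K V (u * π k) = 0 := by
  -- the characteristic polynomial
  have htr : ∀ l : ℕ, ∃ q : ℚ, LinearMap.trace K V (u ^ l) = (q : K) := by
    intro l
    choose! q hq using fun k hk => hrat k hk l
    refine ⟨∑ k ∈ s, q k, ?_⟩
    rw [← mul_one (u ^ l), ← h1, mul_sum, map_sum]
    push_cast
    exact Finset.sum_congr rfl fun k hk => hq k hk
  obtain ⟨χ, hχ, hχu⟩ := exists_charpoly u htr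
  have hχ0 : evq u χ = 0 := by rw [evq, hχu]; exact LinearMap.aeval_self_charpoly u
  -- the induction
  have key : ∀ F : ℚ[X], F ≠ 0 → ∀ E : ℚ[X], evq u E * evq u E = evq u E → evq u (F * E) = 0 →
      ∑ k ∈ s, c k * LinearMap.trace K V (u * evq u E * π k) = 0 := by
    intro F
    induction F using UniqueFactorizationMonoid.induction_on_coprime with
    | h0 => intro h; exact absurd rfl h
    | h1 hF =>
      intro _ E hE h0
      obtain ⟨G, hG⟩ := hF.exists_left_inv
      have h2 : evq u E = 0 := by
        rw [← one_mul E, ← hG, mul_assoc, evq_mul, h0, mul_zero]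
      simp [h2]
    | @hpr p i hF =>
      intro _ E hE h0
      have hp0 : p ≠ 0 := hF.ne_zero
      set m := C p.leadingCoeff⁻¹ * p with hm
      have hlc : p.leadingCoeff ≠ 0 := leadingCoeff_ne_zero.2 hp0
      have hmm : m.Monic := by
        rw [hm, mul_comm]
        exact monic_mul_leadingCoeff_inv hp0
      have hirr : Irreducible m := by
        rw [hm]
        exact (irreducible_isUnit_mul (isUnit_C.2 (isUnit_iff_ne_zero.2 (inv_ne_zero hlc)))).2
          hF.irreducible
      have h2 : evq u (m ^ i * E) = 0 := by
        rw [hm, mul_pow, mul_assoc, evq_mul, h0, mul_zero]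
      have hdeg : (m.natDegree : K) ≠ 0 := by
        have := Irreducible.natDegree_pos hirr
        exact_mod_cast this.ne'
      have h3 : (m.natDegree : K) *
          ∑ k ∈ s, c k * LinearMap.trace K V (u * evq u E * π k) = 0 := by
        rw [mul_sum]
        have h4 : ∀ k ∈ s, (m.natDegree : K) * (c k * LinearMap.trace K V (u * evq u E * π k)) =
            -((m.nextCoeff : ℚ) : K) * (c k * LinearMap.trace K V (evq u E * π k)) := by
          intro k hk
          have := trace_part (hu k hk) (hrat k hk) (hπ k hk) hE hirr hmm h2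
          linear_combination c k * this
        rw [Finset.sum_congr rfl h4, ← mul_sum, hid E hE, mul_zero]
      exact (mul_eq_zero.1 h3).resolve_left hdeg
    | @hcp x y hxy ihx ihy =>
      intro hF E hE h0
      have hx0 : x ≠ 0 := left_ne_zero_of_mul hF
      have hy0 : y ≠ 0 := right_ne_zero_of_mul hF
      obtain ⟨a, b, hab⟩ := hxy.isCoprime
      -- the two idempotents
      have hz : evq u (x * y * E) = 0 := h0
      have e1 : evq u (a * x * E) + evq u (b * y * E) = evq u E := by
        rw [← evq_add, ← add_mul, hab, one_mul]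
      have hzz : evq u (a * x * E) * evq u (b * y * E) = 0 := by
        rw [← evq_mul, show a * x * E * (b * y * E) = a * b * E * (x * y * E) by ring, evq_mul, hz,
          mul_zero]
      have hcm : evq u (b * y * E) * evq u (a * x * E) = 0 := by rw [evq_comm, hzz]
      have hEx : evq u E * evq u (a * x * E) = evq u (a * x * E) := by
        rw [show a * x * E = a * x * E from rfl, evq_mul (a * x), ← mul_assoc, evq_comm E (a * x),
          mul_assoc, hE]
      have hEy : evq u E * evq u (b * y * E) = evq u (b * y * E) := by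
        rw [evq_mul (b * y), ← mul_assoc, evq_comm E (b * y), mul_assoc, hE]
      have i1 : evq u (a * x * E) * evq u (a * x * E) = evq u (a * x * E) := by
        have := hEx
        rwa [← e1, add_mul, hcm, add_zero] at this
      have i2 : evq u (b * y * E) * evq u (b * y * E) = evq u (b * y * E) := by
        have := hEy
        rwa [← e1, add_mul, hzz, zero_add] at this
      have j1 := ihy hy0 (a * x * E) i1 (by
        rw [show y * (a * x * E) = a * (x * y * E) by ring, evq_mul, hz, mul_zero])
      have j2 := ihx hx0 (b * y * E) i2 (by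
        rw [show x * (b * y * E) = b * (x * y * E) by ring, evq_mul, hz, mul_zero])
      rw [← e1]
      have j3 : ∀ k ∈ s, c k * LinearMap.trace K V
          (u * (evq u (a * x * E) + evq u (b * y * E)) * π k) =
          c k * LinearMap.trace K V (u * evq u (a * x * E) * π k) +
          c k * LinearMap.trace K V (u * evq u (b * y * E) * π k) := by
        intro k _
        rw [mul_add, add_mul, map_add, mul_add]
      rw [Finset.sum_congr rfl j3, sum_add_distrib, j1, j2, add_zero]
  have := key χ hχ.ne_zero 1 (by rw [evq_one, one_mul]) (by rw [mul_one]; exact hχ0)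
  simpa [evq_one] using this

end Pool.Agent.N190.Sd
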