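import Pool.Agent.N190.Sd.Defs
import Pool.Agent.N190.Sd.Idem
import Pool.Agent.H447R3.NcB

/-!
# The conjecture B and central idempotents
-/

set_option autoImplicit false

open CategoryTheory AlgebraicGeometry Finset Polynomial Module

universe u v

namespace Pool.Agent.N190.Sd

open Pool.Agent.H447
open Pool.Agent.H914 VarClass Obj WeilCohomology

section Abs

variable {K : Type*} [Field K] [CharZero K] {V : Type*} [AddCommGroup V] [Module K V]
variable {gr : ℕ → Submodule K V} {n : ℕ} {R : ℤ → Module.End K V → Prop}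

/-- numerically central operators of degree zero -/
def NC (h : DirectSum.IsInternal gr) (R : ℤ → Module.End K V → Prop) (v : End K V) : Prop :=
  R 0 v ∧ ∀ d x, R d x → NumR h R d (x * v - v * x)

variable (hR : OpAlg gr R) {h : DirectSum.IsInternal gr}

include hR

lemma NumR.smul {d : ℤ} {x : End K V} (hx : NumR h R d x) (q : ℚ) : NumR h R d ((q : K) • x) :=
  ⟨hR.smul q hx.1, fun y hy => by rw [smul_mul_assoc, mul_smul_comm, map_smul, hx.2 y hy,
    smul_zero]⟩

lemma NC.one : NC h R 1 := ⟨hR.one, fun d x _ => by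
  rw [mul_one, one_mul, sub_self]; exact NumR.zero hR d⟩

lemma NC.add {v w : End K V} (hv : NC h R v) (hw : NC h R w) : NC h R (v + w) :=
  ⟨hR.add hv.1 hw.1, fun d x hx => by
    rw [show x * (v + w) - (v + w) * x = (x * v - v * x) + (x * w - w * x) by noncomm_ring]
    exact NumR.add hR (hv.2 d x hx) (hw.2 d x hx)⟩

lemma NC.smul {v : End K V} (hv : NC h R v) (q : ℚ) : NC h R ((q : K) • v) :=
  ⟨hR.smul q hv.1, fun d x hx => by
    rw [mul_smul_comm, smul_mul_assoc, ← smul_sub]
    exact NumR.smul hR (hv.2 d x hx) q⟩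

lemma NC.mul {v w : End K V} (hv : NC h R v) (hw : NC h R w) : NC h R (v * w) :=
  ⟨hR.cast (hR.mul hv.1 hw.1) (by ring), fun d x hx => by
    rw [show x * (v * w) - (v * w) * x = (x * v - v * x) * w + v * (x * w - w * x) by
      noncomm_ring]
    exact NumR.add hR ((NumR.mul_right hR (hv.2 d x hx) hw.1).cast (by ring))
      ((NumR.mul_left hR hv.1 (hw.2 d x hx)).cast (by ring))⟩

lemma NC.pow {v : End K V} (hv : NC h R v) (l : ℕ) : NC h R (v ^ l) := by
  induction l with
  | zero => rw [pow_zero]; exact NC.one hR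
  | succ l ih => rw [pow_succ]; exact NC.mul hR ih hv

lemma NC.evq [Module.Finite K V] {v : End K V} (hv : NC h R v) (G : ℚ[X]) : NC h R (Sd.evq v G) := by
  induction G using Polynomial.induction_on' with
  | add F G hF hG => rw [evq_add]; exact NC.add hR hF hG
  | monomial n c =>
    rw [Sd.evq, map_monomial, aeval_monomial, Algebra.algebraMap_eq_smul_one, smul_mul_assoc,
      one_mul]
    exact NC.smul hR (NC.pow hR hv n) c

lemma par_rop (hbd : ∀ i, 2 * n + 1 ≤ i → gr i = ⊥) (hP : ∀ i, R 0 (proj h i)) :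
    R 0 (par h) := by
  rw [par, scal_eq_sum h hbd]
  apply hR.sum
  intro i _
  have h1 : ((-1 : K)) ^ i = (((-1 : ℚ) ^ i : ℚ) : K) := by push_cast; rfl
  rw [h1]
  exact hR.smul _ (hP i)

lemma wt_rop (hbd : ∀ i, 2 * n + 1 ≤ i → gr i = ⊥) (hP : ∀ i, R 0 (proj h i)) :
    R 0 (wt h n) := by
  rw [wt, scal_eq_sum h hbd]
  exact hR.sum (fun i _ => hR.smul _ (hP i))

/-- The weighted trace vanishes on the numerically central operators if it vanishes on the
idempotents among them. -/
theorem trace_zero_of_idem [Module.Finite K V] (hbd : ∀ i, 2 * n + 1 ≤ i → gr i = ⊥)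
    (hstr : ∀ y, R 0 y → ∃ q : ℚ, LinearMap.trace K V (par h * y) = q)
    (hP : ∀ i, R 0 (proj h i))
    (hid : ∀ e, NC h R e → e * e = e → LinearMap.trace K V (wt h n * e) = 0)
    {u : End K V} (hu : NC h R u) : LinearMap.trace K V (wt h n * u) = 0 := by
  have hcomm : ∀ i, u * proj h i = proj h i * u := by
    intro i
    apply gr_ext h
    intro j a ha
    have h1 : u a ∈ gr j := by
      have := (hR.hom hu.1) j a (by rw [grZ_natCast]; exact ha)
      rwa [mul_zero, add_zero, grZ_natCast] at this
    rw [Module.End.mul_apply, Module.End.mul_apply]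
    by_cases hij : j = i
    · subst hij
      rw [proj_same h ha, proj_same h h1]
    · rw [proj_ne h ha hij, proj_ne h h1 hij, map_zero]
  have hsum : ∀ y : End K V, LinearMap.trace K V (wt h n * y) =
      ∑ i ∈ range (2 * n + 1), (((node n i : ℚ) : K)) * LinearMap.trace K V (y * proj h i) := by
    intro y
    rw [wt, scal_eq_sum h hbd, Finset.sum_mul, map_sum]
    apply Finset.sum_congr rfl
    intro i _
    rw [smul_mul_assoc, map_smul, smul_eq_mul, LinearMap.trace_mul_comm]
  have hone : ∑ i ∈ range (2 * n + 1), proj h i = 1 := by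
    rw [← scal_one h, scal_eq_sum h hbd]
    exact Finset.sum_congr rfl fun i _ => (one_smul _ _).symm
  have hpar := par_rop (n := n) hR hbd hP
  rw [hsum]
  refine sum_trace_zero (fun i _ => proj_mul_proj h i) (fun i _ => hcomm i) hone ?_ _ ?_
  · intro i _ l
    have hul : R 0 (u ^ l) := hR.cast (hR.pow hu.1 l) (by simp)
    have h1 := hstr (par h * (u ^ l * proj h i))
      (hR.cast (hR.mul hpar (hR.mul hul (hP i))) (by ring))
    rwa [← mul_assoc (par h) (par h), par_mul_par, one_mul] at h1
  · intro G hG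
    rw [← hsum]
    exact hid _ (NC.evq hR hu G) hG

end Abs

section Geo

variable {k : Type u} [Field k] {𝒱 : VarClass k} {ops : CycleOps 𝒱}
  {W : WeilCohomology.{u, v} ops} {X : 𝒱.Obj}

lemma isCentralIdempotent_iff {u : (X.prod X).Cycles} (hu : (X.prod X).IsCyc X.dim u) :
    IsCentralIdempotent ops X u ↔ NC (W.isInternal X) (ROp W X) (W.corr (W.cl _ u)) ∧
      NumR (W.isInternal X) (ROp W X) 0
        (W.corr (W.cl _ u) - W.corr (W.cl _ u) * W.corr (W.cl _ u)) := by
  rw [IsCentralIdempotent, numCentral_iff hu,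
    numEquiv_iff (W := W) (compCyc_mem (r := X.dim) hu hu (by omega)) hu, corr_compCyc W hu]
  constructor
  · rintro ⟨_, h2, h3⟩
    exact ⟨⟨rop_corr (by simp) hu, h3⟩, h2⟩
  · rintro ⟨⟨_, h2⟩, h3⟩
    exact ⟨hu, h3, h2⟩

/-- **The conjecture B and the weights of the central idempotents.** -/
theorem balanced_iff {D : X.Cycles} (hD : X.IsCyc 1 D) (hHL : HardLefschetz W X D) :
    LefschetzB W X D ↔ KunnethStd W X ∧ BalancedCenter W X := by
  have hOA := rop_opAlg (W := W) (X := X)
  have hT : LefschetzB W X D ↔ KunnethStd W X ∧ CentralTraceZero W X :=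
    (central_tfae hD hHL).out 0 2
  rw [hT]
  refine ⟨fun h => ⟨h.1, fun e he => h.2 e he.1 he.2.2⟩, fun h => ⟨h.1, ?_⟩⟩
  intro u hu hcu H hH
  rw [isWeightOp_iff.1 hH]
  change LinearMap.trace W.K (W.H X) (wt (W.isInternal X) X.dim * _) = 0
  refine trace_zero_of_idem hOA W_hbd (fun y hy => rop_str y hy) (kunneth_rop h.1) ?_
    ⟨rop_corr (by simp) hu, (numCentral_iff hu).1 hcu⟩
  intro e he hee
  obtain ⟨z, hz, rfl⟩ := exists_of_rop (p := X.dim) (by simp) he.1
  have h1 : IsCentralIdempotent ops X z := (isCentralIdempotent_iff (W := W) hz).2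
    ⟨he, by rw [hee, sub_self]; exact NumR.zero hOA 0⟩
  exact h.2 z h1 _ (isWeightOp_iff.2 rfl)

/-- Adjoint operators have the same trace. -/
lemma trace_adjoint {E F : End W.K (W.H X)} (hEF : ∀ a b, W.tr X (E a * b) = W.tr X (a * F b)) :
    LinearMap.trace W.K (W.H X) E = LinearMap.trace W.K (W.H X) F := by
  set φ : W.H X →ₗ[W.K] Dual W.K (W.H X) :=
    ((LinearMap.mul W.K (W.H X)).compr₂ (W.tr X)).flip with hφ
  have hφa : ∀ a b, φ b a = W.tr X (a * b) := fun a b => rfl
  have hinj : Function.Injective φ := by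
    rw [injective_iff_map_eq_zero]
    intro b hb
    apply nondeg_right
    intro a
    rw [← hφa, hb]; rfl
  have hbij : Function.Bijective φ := by
    refine ⟨hinj, ?_⟩
    exact (LinearMap.injective_iff_surjective_of_finrank_eq_finrank
      (Subspace.dual_finrank_eq).symm).1 hinj
  set ψ := LinearEquiv.ofBijective φ hbij with hψ
  have h1 : Module.Dual.transpose (R := W.K) E = ψ.conj F := by
    apply LinearMap.ext
    intro f
    obtain ⟨b, rfl⟩ := ψ.surjective f
    rw [LinearEquiv.conj_apply_apply, LinearEquiv.symm_apply_apply]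
    apply LinearMap.ext
    intro a
    change φ b (E a) = φ (F b) a
    rw [hφa, hφa, hEF]
  rw [← LinearMap.trace_transpose' , h1, LinearMap.trace_conj']

/-- The weight operator is anti-self-adjoint. -/
lemma tr_wt (a b : W.H X) : W.tr X (wt (W.isInternal X) X.dim a * b) =
    -W.tr X (a * wt (W.isInternal X) X.dim b) := by
  refine gr_induction (W.isInternal X) (p := fun a =>
    W.tr X (wt (W.isInternal X) X.dim a * b) = -W.tr X (a * wt (W.isInternal X) X.dim b)) ?_ ?_ a
  swap
  · intro a a' ha ha'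
    rw [map_add, add_mul, add_mul, map_add, map_add, ha, ha', neg_add]
  intro i a ha
  refine gr_induction (W.isInternal X) (p := fun b =>
    W.tr X (wt (W.isInternal X) X.dim a * b) = -W.tr X (a * wt (W.isInternal X) X.dim b)) ?_ ?_ b
  swap
  · intro b b' hb hb'
    rw [map_add, mul_add, mul_add, map_add, map_add, hb, hb', neg_add]
  intro j b hb
  rw [wt, scal_apply _ _ ha, scal_apply _ _ hb, smul_mul_assoc, mul_smul_comm, map_smul, map_smul]
  by_cases hij : i + j = 2 * X.dim
  · have : ((node X.dim i : ℚ) : W.K) = -((node X.dim j : ℚ) : W.K) := by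
      have h2 : (i : ℚ) + j = 2 * X.dim := by exact_mod_cast hij
      rw [node, node, ← Rat.cast_neg]
      congr 1
      linarith
    rw [this, neg_smul]
  · rw [W.tr_eq_zero (W.mul_mem ha hb) hij, smul_zero, smul_zero, neg_zero]

/-- The weighted trace of the transpose. -/
lemma weighted_trace_swap {u : (X.prod X).Cycles} (hu : (X.prod X).IsCyc X.dim u) :
    LinearMap.trace W.K (W.H X) (wt (W.isInternal X) X.dim *
      W.corr (W.cl _ (ops.pull (swap X X) u))) =
    -LinearMap.trace W.K (W.H X) (wt (W.isInternal X) X.dim * W.corr (W.cl _ u)) := by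
  have h1 : ∀ a b, W.tr X ((wt (W.isInternal X) X.dim * W.corr (W.cl _ u)) a * b) =
      W.tr X (a * (-(W.corr (W.cl _ (ops.pull (swap X X) u)) *
        wt (W.isInternal X) X.dim)) b) := by
    intro a b
    rw [Module.End.mul_apply, tr_wt, tr_corr_swap (W.cl_mem hu), LinearMap.neg_apply, mul_neg,
      map_neg, Module.End.mul_apply, W.cl_pull]
  rw [trace_adjoint h1, map_neg, neg_neg, LinearMap.trace_mul_comm]

lemma trace_wt_num (hK : KunnethStd W X) {x : End W.K (W.H X)}
    (hx : NumR (W.isInternal X) (ROp W X) 0 x) :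
    LinearMap.trace W.K (W.H X) (wt (W.isInternal X) X.dim * x) = 0 := by
  have hOA := rop_opAlg (W := W) (X := X)
  have hP := kunneth_rop hK
  have h1 := hx.2 (wt (W.isInternal X) X.dim * par (W.isInternal X))
    (hOA.cast (hOA.mul (wt_rop hOA W_hbd hP) (par_rop hOA W_hbd hP)) (by ring))
  rwa [← mul_assoc, ← mul_assoc, LinearMap.trace_mul_comm, ← mul_assoc, ← mul_assoc,
    par_mul_par, one_mul, LinearMap.trace_mul_comm] at h1

/-- If the central idempotents are symmetric, then their weights are balanced. -/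
theorem balanced_of_symmetric (hK : KunnethStd W X) (hS : SymmetricCenter ops X) :
    BalancedCenter W X := by
  intro e he H hH
  rw [isWeightOp_iff.1 hH]
  change LinearMap.trace W.K (W.H X) (wt (W.isInternal X) X.dim * _) = 0
  have h1 := trace_wt_num hK ((numEquiv_iff (W := W) (ops.pull_mem (swap X X) he.1) he.1).1
    (hS e he))
  rw [mul_sub, map_sub, weighted_trace_swap he.1, sub_neg_eq_add, ← two_mul] at h1
  exact (mul_eq_zero.1 h1).resolve_left two_ne_zero

/-- **Symmetric central idempotents imply B.** -/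
theorem B_of_symmetric {D : X.Cycles} (hD : X.IsCyc 1 D) (hHL : HardLefschetz W X D)
    (hK : KunnethStd W X) (hS : SymmetricCenter ops X) : LefschetzB W X D :=
  (balanced_iff hD hHL).2 ⟨hK, balanced_of_symmetric hK hS⟩

end Geo

end Pool.Agent.N190.Sd
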