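import Mathlib

/-!
# Endomorphisms whose powers have rational traces
-/

set_option autoImplicit false

open Polynomial Module

namespace Pool.Agent.N190.Sd

section Newton

open Matrix

variable {ι K : Type*} [Fintype ι] [DecidableEq ι] [Field K]

lemma derivative_charpoly (A : Matrix ι ι K) :
    derivative A.charpoly = trace (adjugate (charmatrix A)) := by
  have hder : ∀ i j, derivative (charmatrix A i j) = if i = j then 1 else 0 := by
    intro i j
    by_cases h : i = j
    · subst h; simp [charmatrix_apply_eq]
    · simp [charmatrix_apply_ne _ _ _ h, h]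
  rw [charpoly, ← det_transpose, det_apply, derivative_sum]
  simp only [trace, diag_apply, adjugate_apply]
  have h1 : ∀ i, (updateRow (charmatrix A) i (Pi.single i 1)).det =
      ∑ σ : Equiv.Perm ι, Equiv.Perm.sign σ • ((∏ j ∈ Finset.univ.erase i,
        charmatrix A j (σ j)) * (if i = σ i then 1 else 0)) := by
    intro i
    rw [← det_transpose, det_apply]
    refine Finset.sum_congr rfl fun σ _ => ?_
    congr 1
    rw [← Finset.prod_erase_mul _ _ (Finset.mem_univ i)]
    congr 1
    · refine Finset.prod_congr rfl fun j hj => ?_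
      simp [updateRow_ne (Finset.ne_of_mem_erase hj)]
    · simp [Pi.single_apply, eq_comm]
  simp only [h1]
  rw [Finset.sum_comm]
  refine Finset.sum_congr rfl fun σ _ => ?_
  rw [← Finset.smul_sum]
  simp only [transpose_apply]
  rw [Units.smul_def, Units.smul_def, derivative_smul, derivative_prod_finset]
  congr 1
  refine Finset.sum_congr rfl fun i _ => ?_
  rw [hder]

/-- The coefficients of the adjugate of the characteristic matrix. -/
noncomputable def adjc (A : Matrix ι ι K) (k : ℕ) : Matrix ι ι K :=
  (matPolyEquiv (adjugate (charmatrix A))).coeff k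

lemma adjc_mul (A : Matrix ι ι K) :
    (X - C A) * matPolyEquiv (adjugate (charmatrix A)) =
      A.charpoly.map (algebraMap K (Matrix ι ι K)) := by
  have h : A.charpoly • (1 : Matrix ι ι K[X]) =
      charmatrix A * adjugate (charmatrix A) := (mul_adjugate _).symm
  have h2 := congrArg matPolyEquiv h
  rw [map_mul, matPolyEquiv_charmatrix, matPolyEquiv_smul_one] at h2
  exact h2.symm

lemma algMap_eq (c : K) : algebraMap K (Matrix ι ι K) c = c • 1 :=
  Algebra.algebraMap_eq_smul_one c

lemma adjc_rec (A : Matrix ι ι K) (k : ℕ) :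
    adjc A k = A * adjc A (k + 1) + A.charpoly.coeff (k + 1) • 1 := by
  have h := congrArg (fun p => coeff p (k + 1)) (adjc_mul A)
  simp only [coeff_map, sub_mul, coeff_sub, coeff_X_mul, coeff_C_mul, algMap_eq] at h
  unfold adjc
  rw [← h]
  abel

lemma adjc_zero_rec (A : Matrix ι ι K) :
    0 = A * adjc A 0 + A.charpoly.coeff 0 • 1 := by
  have h := congrArg (fun p => coeff p 0) (adjc_mul A)
  simp only [coeff_map, sub_mul, coeff_sub, coeff_C_mul, algMap_eq, coeff_X_mul_zero,
    zero_sub] at h
  unfold adjc
  rw [← h]
  abel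

lemma trace_adjc (A : Matrix ι ι K) (k : ℕ) :
    trace (adjc A k) = ((k : K) + 1) * A.charpoly.coeff (k + 1) := by
  have h := congrArg (fun p => coeff p k) (derivative_charpoly A)
  simp only [coeff_derivative, trace, diag_apply, finsetSum_coeff] at h
  unfold trace adjc
  simp only [diag_apply, matPolyEquiv_coeff_apply]
  rw [← h]
  ring

lemma adjc_eq_zero (A : Matrix ι ι K) (k : ℕ) (hk : Fintype.card ι ≤ k) : adjc A k = 0 := by
  set N := (matPolyEquiv (adjugate (charmatrix A))).natDegree + 1 with hN
  have key : ∀ j, ∀ k, Fintype.card ι ≤ k → N ≤ k + j → adjc A k = 0 := by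
    intro j
    induction j with
    | zero =>
      intro k _ h
      exact coeff_eq_zero_of_natDegree_lt (by omega)
    | succ j ih =>
      intro k hk h
      rw [adjc_rec, ih (k + 1) (by omega) (by omega)]
      have : A.charpoly.coeff (k + 1) = 0 := by
        apply coeff_eq_zero_of_natDegree_lt
        rw [charpoly_natDegree_eq_dim]
        omega
      rw [this]
      simp
  exact key N k hk (by omega)

/-- The identities of Newton. -/
lemma newton (A : Matrix ι ι K) (k : ℕ) :
    ((k : K) - Fintype.card ι) * A.charpoly.coeff k = trace (A * adjc A k) := by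
  have h1 : trace ((A.charpoly.coeff k) • (1 : Matrix ι ι K)) =
      A.charpoly.coeff k * Fintype.card ι := by
    rw [trace_smul, trace_one, smul_eq_mul]
  rcases k with _ | k
  · have h := congrArg trace (adjc_zero_rec A)
    rw [trace_zero, trace_add, h1] at h
    rw [eq_comm, add_eq_zero_iff_eq_neg] at h
    rw [h]
    push_cast; ring
  · have h := congrArg trace (adjc_rec A k)
    rw [trace_adjc, trace_add, h1] at h
    have h2 : trace (A * adjc A (k + 1)) = ((k : K) + 1) * A.charpoly.coeff (k + 1) -
        A.charpoly.coeff (k + 1) * Fintype.card ι := by rw [h]; ring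
    rw [h2]
    push_cast; ring

variable [CharZero K]

/-- The coefficients of the characteristic polynomial are rational if the traces of the powers
are. -/
lemma coeff_rat (A : Matrix ι ι K) (h : ∀ l : ℕ, ∃ q : ℚ, trace (A ^ l) = (q : K)) (k : ℕ) :
    ∃ q : ℚ, A.charpoly.coeff k = (q : K) := by
  set d := Fintype.card ι with hd
  have key : ∀ j k : ℕ, d ≤ k + j → (∃ q : ℚ, A.charpoly.coeff k = (q : K)) ∧
      ∀ l : ℕ, ∃ q : ℚ, trace (A ^ l * adjc A k) = (q : K) := by
    intro j
    induction j with
    | zero =>
      intro k hk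
      refine ⟨?_, fun l => ⟨0, by rw [adjc_eq_zero A k (by omega)]; simp⟩⟩
      rcases Nat.eq_or_lt_of_le (show d ≤ k by omega) with h1 | h1
      · refine ⟨1, ?_⟩
        have h2 := A.charpoly_monic.coeff_natDegree
        rw [charpoly_natDegree_eq_dim, ← hd, h1] at h2
        rw [h2]; simp
      · refine ⟨0, ?_⟩
        rw [coeff_eq_zero_of_natDegree_lt (by rw [charpoly_natDegree_eq_dim]; omega)]
        simp
    | succ j ih =>
      intro k hk
      by_cases hk' : d ≤ k
      · exact ih k (by omega)
      · obtain ⟨⟨c, hc⟩, htr⟩ := ih (k + 1) (by omega)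
        have h2 : ∀ l : ℕ, ∃ q : ℚ, trace (A ^ l * adjc A k) = (q : K) := by
          intro l
          obtain ⟨q1, hq1⟩ := htr (l + 1)
          obtain ⟨q2, hq2⟩ := h l
          refine ⟨q1 + c * q2, ?_⟩
          rw [adjc_rec, mul_add, ← mul_assoc, ← pow_succ, mul_smul_comm, mul_one, trace_add,
            trace_smul, hq1, hq2, hc, smul_eq_mul]
          push_cast; ring
        refine ⟨?_, h2⟩
        obtain ⟨q, hq⟩ := h2 1
        have h3 := newton A k
        rw [pow_one] at hq
        rw [hq] at h3
        have h4 : ((k : K) - d) ≠ 0 := by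
          intro h5
          have : (k : K) = (d : K) := sub_eq_zero.1 h5
          exact hk' (by have := Nat.cast_injective this; omega)
        refine ⟨q / (k - d), ?_⟩
        push_cast
        rw [eq_div_iff h4, mul_comm]
        exact h3
  exact (key d k (by omega)).1

end Newton

variable {K : Type*} [Field K] [CharZero K] {M : Type*} [AddCommGroup M] [Module K M]
  [Module.Finite K M]

/-- The characteristic polynomial is rational if the traces of the powers are. -/
theorem exists_charpoly (u : End K M)
    (h : ∀ l : ℕ, ∃ q : ℚ, LinearMap.trace K M (u ^ l) = (q : K)) :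
    ∃ χ : ℚ[X], χ.Monic ∧ χ.map (algebraMap ℚ K) = u.charpoly := by
  set b := Module.Free.chooseBasis K M with hb
  set A := LinearMap.toMatrix b b u with hA
  have hA1 : A.charpoly = u.charpoly := LinearMap.charpoly_toMatrix u b
  have hA2 : ∀ l : ℕ, ∃ q : ℚ, Matrix.trace (A ^ l) = (q : K) := by
    intro l
    obtain ⟨q, hq⟩ := h l
    refine ⟨q, ?_⟩
    rw [← hq, LinearMap.trace_eq_matrix_trace K b, LinearMap.toMatrix_pow]
  have h1 : u.charpoly ∈ Polynomial.lifts (algebraMap ℚ K) := by
    rw [Polynomial.lifts_iff_coeff_lifts]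
    intro n
    obtain ⟨q, hq⟩ := coeff_rat A hA2 n
    exact ⟨q, by rw [← hA1, hq]; simp⟩
  obtain ⟨χ, hχ⟩ := (Polynomial.mem_lifts _).1 h1
  refine ⟨χ, ?_, hχ⟩
  have h2 : (χ.map (algebraMap ℚ K)).Monic := by rw [hχ]; exact u.charpoly_monic
  exact Polynomial.monic_of_injective (algebraMap ℚ K).injective h2

end Pool.Agent.N190.Sd
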