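import Pool.Agent.H447R3.NcDefs
import Pool.Agent.H914R2.KCorr

/-!
# Central idempotents of the ring of correspondences modulo numerical equivalence
-/

open CategoryTheory AlgebraicGeometry

universe u v

namespace Pool.Agent.N190.Sd

open Pool.Agent.H447
open Pool.Agent.H914 VarClass Obj WeilCohomology

variable {k : Type u} [Field k] {𝒱 : VarClass k}

/-- The correspondence `e` of degree zero (a cycle of codimension `dim X` on `X × X`) is, modulo
numerical equivalence, an idempotent which commutes with all correspondences of all degrees. -/
def IsCentralIdempotent (ops : CycleOps 𝒱) (X : 𝒱.Obj) (e : (X.prod X).Cycles) : Prop :=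
  (X.prod X).IsCyc X.dim e ∧ NumEquiv ops (X.prod X) X.dim (compCyc ops e e) e ∧
    NumCentral ops X e

/-- Every central idempotent `e` of the ring of correspondences modulo numerical equivalence is
numerically equivalent to its transpose. -/
def SymmetricCenter (ops : CycleOps 𝒱) (X : 𝒱.Obj) : Prop :=
  ∀ e, IsCentralIdempotent ops X e →
    NumEquiv ops (X.prod X) X.dim (ops.pull (swap X X) e) e

/-- For every central idempotent `e` of the ring of correspondences modulo numerical equivalence
the sum of the numbers `(j - n)` times the trace of `e` on `H^j(X)` is zero, where `n = dim X`. -/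
def BalancedCenter {ops : CycleOps 𝒱} (W : WeilCohomology.{u, v} ops) (X : 𝒱.Obj) : Prop :=
  ∀ e, IsCentralIdempotent ops X e → WeightedTraceZero W X e

end Pool.Agent.N190.Sd
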