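import Pool.Agent.N190.Sd.Rat

/-!
# Primary endomorphisms with rational traces
-/

set_option autoImplicit false

open Polynomial Module TensorProduct

namespace Pool.Agent.N190.Sd

/-- A monic polynomial all irreducible factors of which are multiples of `m` is a power of `m`. -/
lemma eq_pow_of_factors {m : ℚ[X]} (hm : Irreducible m) (hmm : m.Monic) :
    ∀ (N : ℕ) (χ : ℚ[X]), χ.Monic → χ.natDegree ≤ N →
      (∀ p, Irreducible p → p ∣ χ → m ∣ p) → ∃ a : ℕ, χ = m ^ a := by
  intro N
  induction N with
  | zero =>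
    intro χ hχ hN _
    exact ⟨0, by rw [pow_zero]; exact hχ.natDegree_eq_zero.1 (by omega)⟩
  | succ N ih =>
    intro χ hχ hN h
    by_cases h0 : χ.natDegree = 0
    · exact ⟨0, by rw [pow_zero]; exact hχ.natDegree_eq_zero.1 h0⟩
    · have hnu : ¬ IsUnit χ := fun hu => h0 (natDegree_eq_zero_of_isUnit hu)
      obtain ⟨p, hp, hpd⟩ := WfDvdMonoid.exists_irreducible_factor hnu hχ.ne_zero
      obtain ⟨c, hc⟩ := (h p hp hpd).trans hpd
      have hcm : c.Monic := by
        have h1 : (m * c).Monic := hc ▸ hχ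
        exact hmm.of_mul_monic_left h1
      have hdeg : χ.natDegree = m.natDegree + c.natDegree := by
        rw [hc, hmm.natDegree_mul hcm]
      have hmd : 0 < m.natDegree := Irreducible.natDegree_pos hm
      obtain ⟨a, ha⟩ := ih c hcm (by omega) (fun q hq hqc => h q hq (hqc.trans ⟨m, by rw [hc]; ring⟩))
      exact ⟨a + 1, by rw [hc, ha, pow_succ']⟩

variable {K : Type*} [Field K] [CharZero K] {M : Type*} [AddCommGroup M] [Module K M]
  [Module.Finite K M]

/-- The characteristic polynomial of a primary endomorphism with rational traces. -/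
theorem charpoly_primary {u : End K M} {χ m : ℚ[X]} (hχ : χ.Monic)
    (hχu : χ.map (algebraMap ℚ K) = u.charpoly) (hm : Irreducible m) (hmm : m.Monic) {i : ℕ}
    (h0 : aeval u ((m ^ i).map (algebraMap ℚ K)) = 0) : ∃ a : ℕ, χ = m ^ a := by
  refine eq_pow_of_factors hm hmm _ χ hχ le_rfl fun p hp hpd => ?_
  by_contra hmp
  have hcop : IsCoprime m p := (hm.coprime_iff_not_dvd).2 hmp
  obtain ⟨a, b, hab⟩ := hcop.pow_left (m := i)
  -- a root of `p`
  set Ω := AlgebraicClosure K with hΩ
  have he : (algebraMap K Ω).comp (algebraMap ℚ K) = algebraMap ℚ Ω := RingHom.ext_rat _ _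
  set uΩ : End Ω (Ω ⊗[K] M) := u.baseChange Ω with huΩ
  have hev : ∀ f : K[X], aeval uΩ (f.map (algebraMap K Ω)) = (aeval u f).baseChange Ω := by
    intro f
    induction f using Polynomial.induction_on' with
    | add f g hf hg =>
      rw [Polynomial.map_add, map_add, hf, hg, map_add, LinearMap.baseChange_add]
    | monomial n c =>
      rw [map_monomial, aeval_monomial, aeval_monomial]
      ext x
      simp [Algebra.algebraMap_eq_smul_one, huΩ, ← LinearMap.baseChange_pow, TensorProduct.smul_tmul']
  obtain ⟨α, hα⟩ : ∃ α : Ω, aeval α p = 0 := by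
    have hdeg : (p.map (algebraMap ℚ Ω)).degree ≠ 0 := by
      rw [degree_map]
      exact (Irreducible.degree_pos hp).ne'
    obtain ⟨α, hα⟩ := IsAlgClosed.exists_root _ hdeg
    exact ⟨α, by rw [aeval_def, ← eval_map]; exact hα⟩
  have hroot : uΩ.charpoly.IsRoot α := by
    obtain ⟨c, hc⟩ := hpd
    rw [huΩ, LinearMap.charpoly_baseChange, ← hχu, Polynomial.map_map, hc, Polynomial.map_mul,
      IsRoot.def, eval_mul]
    have : eval α (p.map ((algebraMap K Ω).comp (algebraMap ℚ K))) = 0 := by
      rw [eval_map, he]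
      rwa [aeval_def] at hα
    rw [this, zero_mul]
  obtain ⟨v, hv⟩ := ((Module.End.hasEigenvalue_iff_isRoot_charpoly uΩ α).2 hroot).exists_hasEigenvector
  have h1 : aeval uΩ ((p.map (algebraMap ℚ K)).map (algebraMap K Ω)) v = 0 := by
    rw [Module.End.aeval_apply_of_hasEigenvector hv, Polynomial.map_map, eval_map]
    rw [aeval_def] at hα
    have : eval₂ ((algebraMap K Ω).comp (algebraMap ℚ K)) α p = 0 := by rwa [he]
    rw [this, zero_smul]
  have h2 : aeval uΩ (((a * m ^ i + b * p).map (algebraMap ℚ K)).map (algebraMap K Ω)) v = v := by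
    rw [hab, Polynomial.map_one, Polynomial.map_one, map_one, Module.End.one_apply]
  rw [Polynomial.map_add, Polynomial.map_add, map_add, LinearMap.add_apply,
    Polynomial.map_mul, Polynomial.map_mul, Polynomial.map_mul, Polynomial.map_mul, map_mul, map_mul,
    Module.End.mul_apply, Module.End.mul_apply, h1, map_zero, add_zero, hev (map _ (m ^ i)), h0,
    LinearMap.baseChange_zero, LinearMap.zero_apply, map_zero] at h2
  exact hv.2 h2.symm

/-- **The trace of a primary endomorphism with rational traces.** -/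
theorem trace_primary {u : End K M} {m : ℚ[X]}
    (h : ∀ l : ℕ, ∃ q : ℚ, LinearMap.trace K M (u ^ l) = (q : K)) (hm : Irreducible m)
    (hmm : m.Monic) {i : ℕ} (h0 : aeval u ((m ^ i).map (algebraMap ℚ K)) = 0) :
    (m.natDegree : K) * LinearMap.trace K M u =
      -((m.nextCoeff : ℚ) : K) * Module.finrank K M := by
  obtain ⟨χ, hχ, hχu⟩ := exists_charpoly u h
  obtain ⟨a, ha⟩ := charpoly_primary hχ hχu hm hmm h0
  have h1 : LinearMap.trace K M u = -((χ.nextCoeff : ℚ) : K) := by
    rw [LinearMap.trace_eq_matrix_trace K (Module.Free.chooseBasis K M),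
      Matrix.trace_eq_neg_charpoly_nextCoeff, LinearMap.charpoly_toMatrix, ← hχu,
      nextCoeff_map (algebraMap ℚ K).injective]
    rfl
  have h2 : Module.finrank K M = a * m.natDegree := by
    rw [← LinearMap.charpoly_natDegree u, ← hχu, natDegree_map, ha, hmm.natDegree_pow]
  rw [h1, h2, ha, hmm.nextCoeff_pow]
  push_cast
  simp only [nsmul_eq_mul]
  push_cast
  ring

end Pool.Agent.N190.Sd
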